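import Pool.Agent.MP_5daf37_lc.BN.Circ

/-!
A super-linear lower bound, in any depth, for linear circuits with bounded scalars that compute or
approximate a unitary matrix with small entries, such as the normalized Fourier transforms.
-/

open Pool.Agent.MP_5daf37_lc

namespace Pool.Agent.Results.MP_5daf37_lc.FlatUnitary

theorem result (F : Type) [RCLike F] (n m p q : ℕ) (C : Circuit F n p q)
    (A : Matrix (Fin n) (Fin n) F) (hC : C.Computes A) (r c : Fin m → Fin n)
    (U : Matrix (Fin m) (Fin m) F) (hU : U.conjTranspose * U = 1)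
    (μ : ℝ) (hμ1 : μ < 1) (hμ : ∀ i j, ‖U i j‖ ≤ μ)
    (hA : ∀ x : Fin m → F,
      64 * ∑ i, ‖(A.submatrix r c - U).mulVec x i‖ ^ 2 ≤ ∑ i, ‖x i‖ ^ 2)
    (E : Finset (Fin q)) (hE : 32 * E.card ≤ m) :
    (m : ℝ) * Real.log (Real.log μ⁻¹) ≤
      2330 * ∑ v, Real.logb 2 (2 + ∑ e with e ∉ E ∧ C.head e = v, ‖C.weight e‖) :=
  BN.main C A hC r c U hU μ hμ1 hμ hA E hE

end Pool.Agent.Results.MP_5daf37_lc.FlatUnitary
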