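import Pool.Agent.MP_5daf37_lc.DH.E

/-!
A lower bound of order `N log N`, in any depth, for linear circuits that compute a Fourier
transform of prime power order, when more than `N` edges carry arbitrary scalars and the other
edges carry algebraic scalars charged by their Weil height.
-/

open Pool.Agent.MP_5daf37_lc NumberField

namespace Pool.Agent.Results.MP_5daf37_lc.FourierHelp

theorem result (K F : Type) [Field K] [NumberField K] [Field F] (φ : K →+* F) (P k t n p q : ℕ)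
    (hP : P.Prime) (hK : ∃! 𝔭 : Ideal (𝓞 K), 𝔭.IsPrime ∧ (P : 𝓞 K) ∈ 𝔭) (hk : 10 ^ 6 ≤ k)
    (W : Matrix (Fin t) (Fin t) K) (hW : Polynomial.aeval W (Polynomial.cyclotomic (P ^ k) ℤ) = 0)
    (hI : ∀ (j : ℕ) (x y : Fin t), IsIntegral ℤ ((P : K) * (W ^ j) x y))
    (hU : ∀ σ : K →+* ℂ, W.map σ ∈ Matrix.unitaryGroup (Fin t) ℂ)
    (A : Matrix (Fin n) (Fin n) F) (f : Fin (P ^ k) × Fin t → Fin n) (hf : Function.Injective f)
    (hA : ∀ x y, A (f x) (f y) = φ ((W ^ (x.1.val * y.1.val)) x.2 y.2))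
    (C : Circuit F n p q) (hC : C.Computes A) (E : Finset (Fin q))
    (hE : 200 * E.card ≤ 201 * (P ^ k * t)) (x : Fin q → K)
    (hw : ∀ e ∉ E, C.weight e = φ (x e)) :
    (P : ℝ) ^ k * t * (k * Real.logb 2 P / 10 ^ 6 - 2) ≤
      p + q + (∑ e ∈ Eᶜ, Height.logHeight₁ (x e)) / Module.finrank ℚ K :=
  DH.main φ hP hK hk W hW hI hU A f hf hA C hC E hE x hw

end Pool.Agent.Results.MP_5daf37_lc.FourierHelp
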