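import Mathlib
import Pool.Agent.MP_5daf37_lc.SuperCut

/-!
Every superconcentrator with `n` inputs and `n` outputs has at least `6 n - o(n)` edges.
-/

open Pool.Agent.MP_5daf37_lc

namespace Pool.Agent.Results.MP_5daf37_lc.SuperconcentratorSix

theorem result (ε : ℝ) (hε : 0 < ε) : ∃ n0 : ℕ, ∀ n ≥ n0,
    ∀ (V : Type) [Finite V] (G : Digraph V) (X Y : Finset V),
      (∀ v, ¬ Relation.TransGen G.Adj v v) → Disjoint X Y → X.card = n → Y.card = n →
      IsSuperconcentrator G X Y → (6 - ε) * n ≤ {e : V × V | G.Adj e.1 e.2}.ncard := by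
  classical
  obtain ⟨n0, hn0⟩ := cut_bound_real hε
  refine ⟨n0, fun n hn V _ G X Y hac hXY hX hY h => ?_⟩
  have := Fintype.ofFinite V
  have h1 := hn0 n hn V G.Adj X Y hac hXY hX hY h.cut
  rw [ec_eq_card, ← Set.ncard_coe_finset] at h1
  convert h1 using 3
  ext e
  simp

end Pool.Agent.Results.MP_5daf37_lc.SuperconcentratorSix
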