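import Pool.Agent.MP_5daf37_lc.QT.Circ

/-!
A lower bound, linear in the girth, for the number of edges between the parts of any partition of
a linear circuit of any depth with arbitrary scalars that computes a well-conditioned matrix with
little mass between nearby parts, up to scaling of rows and columns.
-/

open Pool.Agent.MP_5daf37_lc

namespace Pool.Agent.Results.MP_5daf37_lc.TreeLike

theorem result (F : Type) [RCLike F] (n m l p q : ℕ) (C : Circuit F n p q)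
    (A : Matrix (Fin n) (Fin n) F) (hC : C.Computes A) (r : Fin l → Fin n) (c : Fin m → Fin n)
    (U : Matrix (Fin l) (Fin m) F) (γ : ℝ) (hγ : 0 < γ)
    (hU : ∀ x : Fin m → F, γ * ∑ j, ‖x j‖ ^ 2 ≤ ∑ i, ‖U.mulVec x i‖ ^ 2 ∧
      ∑ i, ‖U.mulVec x i‖ ^ 2 ≤ ∑ j, ‖x j‖ ^ 2)
    (α : Fin l → F) (β : Fin m → F) (hα : ∀ i, α i ≠ 0) (hβ : ∀ j, β j ≠ 0)
    (hA : ∀ i j, A (r i) (c j) = α i * U i j * β j)
    (π : Fin p → ℕ) (S : Finset (Fin p)) (hS : 32 * (S.card : ℝ) ≤ γ * m)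
    (s : Fin m → ℕ) (t : Fin l → ℕ)
    (h1 : ∀ j v, (∀ e, C.head e ≠ v) → C.label v = c j → π v = s j)
    (h2 : ∀ i, π (C.output (r i)) = t i) (k : ℕ)
    (h3 : ((2 * k + 2 : ℕ) : ℕ∞) < (C.partGraph π S).egirth)
    (h4 : 256 * ∑ a ∈ Finset.univ.image s ∪ Finset.univ.image t,
      ∑ i with (C.partGraph π S).edist (t i) a ≤ k,
        ∑ j with (C.partGraph π S).edist (s j) a ≤ k, ‖U i j‖ ^ 2 ≤ γ ^ 2 * m) :
    γ ^ 2 * k * m ≤ 64 * {e | C.Live π S e}.ncard :=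
  QT.main C A hC r c U γ hγ hU α β hα hβ hA π S hS s t h1 h2 k h3 h4

end Pool.Agent.Results.MP_5daf37_lc.TreeLike
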